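import Pool.Agent.H892.KT.Ax

/-!
# Kato surfaces and birational structures: exact statements of the tasks
-/

set_option autoImplicit false

open Filter Topology Set
open scoped Manifold ContDiff

namespace Pool.Agent.H892.KT

/-! ## Analysis -/

/-- The derivative of the forward iterates at `0`. Write `ℓ_j v = (D σ_j(0) v).2`. Then
`D (orb (k+1) i)(0) v = (0, ℓ_i v * ∏_{j<k} ℓ_{i+1+j} (0,1))`. -/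
def S_FD : Prop := ∀ (n : ℕ) [NeZero n] (K : KatoData n) (k : ℕ) (i : ZMod n),
  ∃ A : ℂ × ℂ →L[ℂ] ℂ × ℂ, HasFDerivAt (fun y => orb K.σ (k + 1) i y) A 0 ∧
    ∀ v : ℂ × ℂ, A v = (0, (fderiv ℂ (K.σ i) 0 v).2 *
      ∏ j ∈ Finset.range k, (fderiv ℂ (K.σ (i + 1 + (j : ZMod n))) 0 (0, 1)).2)

/-- Holomorphic functions of two variables are analytic (and `C^ω`). -/
def S_ANA : Prop := ∀ (U : Set (ℂ × ℂ)) (f : ℂ × ℂ → ℂ × ℂ), IsOpen U → DifferentiableOn ℂ f U →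
  ∀ x ∈ U, AnalyticAt ℂ f x

def S_TRACE : Prop := ∀ (n : ℕ) [NeZero n] (K : KatoData n), K.TraceZero →
  ∃ i, (fderiv ℂ (K.σ i) 0 (0, 1)).2 = 0

def S_QUAD : Prop := ∀ (n : ℕ) [NeZero n] (K : KatoData n),
  (∃ i, (fderiv ℂ (K.σ i) 0 (0, 1)).2 = 0) → Quad K

def S_LIP : Prop := ∀ (n : ℕ) [NeZero n] (K : KatoData n),
  ∃ L δ : ℝ, 1 ≤ L ∧ 0 < δ ∧ ∀ i, ∀ y : ℂ × ℂ, ‖y‖ < δ → y ∈ K.U i ∧ ‖K.σ i y‖ ≤ L * ‖y‖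

def S_WEIGHT : Prop := ∀ (n : ℕ) [NeZero n] (K : KatoData n), Quad K →
  ∃ N : ℕ, 3 ≤ N ∧ ∀ ε : ℝ, 0 < ε → ∃ V W, Wt K N ε V W

def S_HATLIP : Prop := ∀ p v v' : ℂ × ℂ, ‖p‖ ≤ 1 / 2 → ‖v‖ ≤ ‖p.2‖ ^ 3 → ‖v'‖ ≤ ‖p.2‖ ^ 3 →
  ‖hat p v - hat p v'‖ * ‖p.2‖ ≤ 5 * ‖v - v'‖ ∧ ‖hat p v - p‖ ≤ 5 * ‖p.2‖ ^ 2

def S_QUOT : Prop := ∀ (V : Set (ℂ × ℂ)), IsOpen V → ∀ g b : ℂ × ℂ → ℂ,
  DifferentiableOn ℂ g V → DifferentiableOn ℂ b V → (∀ y ∈ V, ‖g y‖ ≤ ‖b y‖ ^ 3) →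
  DifferentiableOn ℂ (fun y => g y / b y) V

def S_INVLIP : Prop := ∀ e : OpenPartialHomeomorph (ℂ × ℂ) (ℂ × ℂ), (0 : ℂ × ℂ) ∈ e.source →
  e 0 = 0 → DifferentiableOn ℂ e.symm e.target → ∃ L r : ℝ, 1 ≤ L ∧ 0 < r ∧
    Metric.ball 0 r ⊆ e.target ∧ ∀ z ∈ Metric.ball (0 : ℂ × ℂ) r,
      ∀ z' ∈ Metric.ball (0 : ℂ × ℂ) r, ‖e.symm z - e.symm z'‖ ≤ L * ‖z - z'‖

/-- One step of the iteration, `T w y = e⁻¹ (hat (σ_i y) (w (f_i y))) - y`. -/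
def S_OP : Prop := ∀ (n : ℕ) [NeZero n] (K : KatoData n) (N : ℕ) (i : ZMod n)
  (e : OpenPartialHomeomorph (ℂ × ℂ) (ℂ × ℂ)), BG e →
  ((fun y => e y - K.σ i y) =O[𝓝 0] fun y => ‖y‖ ^ (N + 1)) →
  ∃ ε₀ : ℝ, 0 < ε₀ ∧ ε₀ ≤ 1 ∧ ∀ ε : ℝ, 0 < ε → ε ≤ ε₀ → ∀ V W, Wt K N ε V W →
    (∀ y ∈ V i, ‖e.symm (hat (K.σ i y) 0) - y‖ ≤ W i y / 4) ∧
    ∀ w : ℂ × ℂ → ℂ × ℂ, DifferentiableOn ℂ w (V (i + 1)) →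
      (∀ y ∈ V (i + 1), ‖w y‖ ≤ W (i + 1) y) →
      (∀ y ∈ V i, hat (K.σ i y) (w (bA (K.σ i y))) ∈ e.target) ∧
      DifferentiableOn ℂ (fun y => e.symm (hat (K.σ i y) (w (bA (K.σ i y)))) - y) (V i) ∧
      ∀ w' : ℂ × ℂ → ℂ × ℂ, (∀ y ∈ V (i + 1), ‖w' y‖ ≤ W (i + 1) y) → ∀ κ : ℝ, 0 ≤ κ →
        (∀ y ∈ V (i + 1), ‖w y - w' y‖ ≤ κ * W (i + 1) y) →
        ∀ y ∈ V i, ‖e.symm (hat (K.σ i y) (w (bA (K.σ i y)))) -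
          e.symm (hat (K.σ i y) (w' (bA (K.σ i y))))‖ ≤ κ / 4 * W i y

def S_LIM : Prop := ∀ (ι : Type) (V : ι → Set (ℂ × ℂ)) (W : ι → ℂ × ℂ → ℝ)
  (u : ℕ → ι → ℂ × ℂ → ℂ × ℂ), (∀ i, IsOpen (V i)) → (∀ i, ∀ y ∈ V i, W i y ≤ 1) →
  (∀ i y, u 0 i y = 0) → (∀ k i, DifferentiableOn ℂ (u k i) (V i)) →
  (∀ k i, ∀ y ∈ V i, ‖u (k + 1) i y - u k i y‖ ≤ (1 / 4) ^ (k + 1) * W i y) →
  ∃ w : ι → ℂ × ℂ → ℂ × ℂ, (∀ i, DifferentiableOn ℂ (w i) (V i)) ∧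
    (∀ k i, ∀ y ∈ V i, ‖w i y - u k i y‖ ≤ (1 / 4) ^ k * W i y) ∧
    ∀ i, ∀ y ∈ V i, ‖w i y‖ ≤ W i y

def S_FIX : Prop := ∀ (n : ℕ) [NeZero n] (K : KatoData n) (N : ℕ)
  (e : ZMod n → OpenPartialHomeomorph (ℂ × ℂ) (ℂ × ℂ)), (∀ i, BG (e i)) →
  (∀ i, (fun y => e i y - K.σ i y) =O[𝓝 0] fun y => ‖y‖ ^ (N + 1)) →
  ∃ ε₀ : ℝ, 0 < ε₀ ∧ ε₀ ≤ 1 ∧ ∀ ε : ℝ, 0 < ε → ε ≤ ε₀ → ∀ V W, Wt K N ε V W →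
    ∃ w : ZMod n → ℂ × ℂ → ℂ × ℂ, (∀ i, DifferentiableOn ℂ (w i) (V i)) ∧
      (∀ i, ∀ y ∈ V i, ‖w i y‖ ≤ W i y) ∧
      ∀ i, ∀ y ∈ V i, y + w i y ∈ (e i).source ∧
        e i (y + w i y) = hat (K.σ i y) (w (i + 1) (bA (K.σ i y)))

def S_INVD : Prop := ∀ (n : ℕ) (K : KatoData n) (i : ZMod n),
  ∃ A : (ℂ × ℂ) ≃L[ℂ] (ℂ × ℂ), fderiv ℂ (K.σ i) 0 = A

def S_CONJ : Prop := ∀ (n : ℕ) [NeZero n] (K : KatoData n), K.TraceZero → Nonempty (ConjData K)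

/-! ## Rational germs -/

def S_RATCOMP : Prop := ∀ (e : OpenPartialHomeomorph (ℂ × ℂ) (ℂ × ℂ)) (p : ℂ × ℂ)
  (τ : ℂ × ℂ → ℂ × ℂ), p ∈ e.source → RatAt e p → RatAt τ (e p) → RatAt (fun q => τ (e q)) p

def S_BIRCOMP : Prop := ∀ (τ τ' : ℂ × ℂ → ℂ × ℂ) (p : ℂ × ℂ), BirAt τ p → BirAt τ' (τ p) →
  BirAt (fun q => τ' (τ q)) p

def S_BIRINV : Prop := ∀ (τ : ℂ × ℂ → ℂ × ℂ) (p : ℂ × ℂ), BirAt τ p →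
  ∃ τ' : ℂ × ℂ → ℂ × ℂ, BirAt τ' (τ p) ∧ τ' (τ p) = p ∧ (∀ᶠ q in 𝓝 p, τ' (τ q) = q) ∧
    ContinuousAt τ p

def S_BIRBASIC : Prop :=
  (∀ p : ℂ × ℂ, p.2 ≠ 0 → BirAt bA p) ∧ (∀ p : ℂ × ℂ, p.1 ≠ 0 → BirAt bB p) ∧
  (∀ p : ℂ × ℂ, p.1 ≠ 0 → BirAt (fun q => (q.1, q.2 / q.1)) p) ∧
  (∀ p : ℂ × ℂ, p.1 ≠ 0 → BirAt bK p) ∧ (∀ p : ℂ × ℂ, BirAt id p)

/-- The identity theorem: rational functions which agree near a point are equal. -/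
def S_UNIQ : Prop := (∀ (P : MvPolynomial (Fin 2) ℂ) (p : ℂ × ℂ), (∀ᶠ q in 𝓝 p, ev P q = 0) →
    P = 0) ∧ (∀ P : MvPolynomial (Fin 2) ℂ, Continuous (ev P)) ∧
  ∀ P : MvPolynomial (Fin 2) ℂ, P ≠ 0 → Dense {q | ev P q ≠ 0}

def S_CONN : Prop := ∀ (V : Set (ℂ × ℂ)) (τ : ℂ × ℂ → ℂ × ℂ), IsOpen V → IsPreconnected V →
  ContinuousOn τ V → (∀ p ∈ V, RatAt τ p) → RatOn τ V

def S_AUT : Prop := ∀ e : OpenPartialHomeomorph (ℂ × ℂ) (ℂ × ℂ), e.source.Nonempty →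
  RatOn e e.source → RatOn e.symm e.target →
  ∃ Φ : RatField ≃ₐ[ℂ] RatField, Restricts Φ e e.source

/-! ## Jets of birational germs -/

def S_JTAY : Prop := ∀ (g : ℂ × ℂ → ℂ) (k : ℕ), AnalyticAt ℂ g 0 →
  (g =O[𝓝 0] fun y => ‖y‖ ^ k) →
  ∃ c : ℕ → ℂ, (fun y => g y - hp k c y) =O[𝓝 0] fun y => ‖y‖ ^ (k + 1)

def S_JLINBG : Prop := ∀ A : (ℂ × ℂ) ≃L[ℂ] (ℂ × ℂ),
  ∃ e : OpenPartialHomeomorph (ℂ × ℂ) (ℂ × ℂ), BG e ∧ ∀ y, e y = A y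

def S_JCOMP : Prop := ∀ e e' : OpenPartialHomeomorph (ℂ × ℂ) (ℂ × ℂ), BG e → BG e' →
  BG (e.trans e')

def S_JADD : Prop := ∀ (k : ℕ) (c d c' d' : ℕ → ℂ), 2 ≤ k → InG k (hm k c d) →
  InG k (hm k c' d') → InG k (fun y => hm k c d y + hm k c' d' y)

def S_JLIN : Prop := ∀ (k : ℕ) (h : ℂ × ℂ → ℂ × ℂ) (A : (ℂ × ℂ) ≃L[ℂ] (ℂ × ℂ)), InG k h →
  InG k (fun y => A.symm (h (A y)))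

def S_JSH : Prop := ∀ (k : ℕ), 2 ≤ k → ∀ l : ℂ, InG k (fun y => (l * y.2 ^ k, 0)) ∧
  InG k (fun y => (l * (y.1 * y.2 ^ (k - 1)), 0))

def S_VDM : Prop := ∀ (M : Type) [AddCommGroup M] [Module ℂ M] (S : Submodule ℂ M) (k : ℕ)
  (v : ℕ → M), (∀ s : ℂ, ∑ j ∈ Finset.range (k + 1), s ^ j • v j ∈ S) → ∀ j ≤ k, v j ∈ S

def S_JSPAN : Prop := ∀ (k : ℕ) (S : Submodule ℂ (ℂ × ℂ → ℂ × ℂ)), 1 ≤ k →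
  (∀ s : ℂ, (fun y : ℂ × ℂ => (y.1 * (y.2 - s * y.1) ^ (k - 1),
    s * (y.1 * (y.2 - s * y.1) ^ (k - 1)))) ∈ S) →
  (∀ s : ℂ, (fun y : ℂ × ℂ => (y.2 * (y.2 - s * y.1) ^ (k - 1),
    s * (y.2 * (y.2 - s * y.1) ^ (k - 1)))) ∈ S) →
  ∀ c d : ℕ → ℂ, hm k c d ∈ S

def S_JALL : Prop := ∀ (k : ℕ) (c d : ℕ → ℂ), 2 ≤ k → InG k (hm k c d)

def S_JSTEP : Prop := ∀ (k : ℕ) (σ : ℂ × ℂ → ℂ × ℂ), 2 ≤ k → AnalyticAt ℂ σ 0 →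
  ∀ e, BG e → ((fun y => e y - σ y) =O[𝓝 0] fun y => ‖y‖ ^ k) →
  ∃ e', BG e' ∧ (fun y => e' y - σ y) =O[𝓝 0] fun y => ‖y‖ ^ (k + 1)

def S_JETS : Prop := ∀ (σ : ℂ × ℂ → ℂ × ℂ) (A : (ℂ × ℂ) ≃L[ℂ] (ℂ × ℂ)) (N : ℕ),
  AnalyticAt ℂ σ 0 → σ 0 = 0 → fderiv ℂ σ 0 = A →
  ∃ e, BG e ∧ (fun y => e y - σ y) =O[𝓝 0] fun y => ‖y‖ ^ (N + 1)

/-! ## Geometry -/

def S_RED1 : Prop := ∀ (n : ℕ) (K : KatoData n) (V : ZMod n → Set (ℂ × ℂ)) (δ : ℝ), 0 < δ →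
  (∀ i, Metric.ball 0 δ ⊆ V i) → (∀ i, V i ⊆ K.U i) →
  ∀ r ∈ K.dom, ∃ r' ∈ dom2 V, Relation.EqvGen K.Glue r r'

def S_RED2 : Prop := ∀ (n : ℕ) (K : KatoData n) (V : ZMod n → Set (ℂ × ℂ)) (δ : ℝ), 0 < δ →
  (∀ i, Metric.ball 0 δ ⊆ V i) → (∀ i, V i ⊆ K.U i) → (∀ i, ∀ y ∈ V i, bA (K.σ i y) ∈ V (i + 1)) →
  ∀ r ∈ dom2 V, ∀ r' ∈ dom2 V, Relation.EqvGen K.Glue r r' → Relation.EqvGen (Glue2 K V) r r'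

/-- Local biholomorphisms to a complex surface give charts. -/
def S_MK : Prop := ∀ (X : Type) [TopologicalSpace X] [ChartedSpace (ℂ × ℂ) X]
  [IsManifold 𝓘(ℂ, ℂ × ℂ) ω X] (q : ℂ × ℂ → X) (y : ℂ × ℂ) (φ : ℂ × ℂ → ℂ × ℂ) (O : Set (ℂ × ℂ))
  (A : (ℂ × ℂ) ≃L[ℂ] (ℂ × ℂ)),
  IsLocalDiffeomorphAt 𝓘(ℂ, ℂ × ℂ) 𝓘(ℂ, ℂ × ℂ) ω q y → IsOpen O → y ∈ O →
  DifferentiableOn ℂ φ O → fderiv ℂ φ y = A →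
  ∃ (e : OpenPartialHomeomorph X (ℂ × ℂ)) (O' : Set (ℂ × ℂ)), IsOpen O' ∧ y ∈ O' ∧ O' ⊆ O ∧
    e ∈ IsManifold.maximalAtlas 𝓘(ℂ, ℂ × ℂ) ω X ∧ (∀ y' ∈ O', q y' ∈ e.source ∧ e (q y') = φ y') ∧
    ∀ x ∈ e.source, ∃ y' ∈ O', q y' = x

def S_PHI : Prop := ∀ (n : ℕ) (K : KatoData n) (D : ConjData K) (i : ZMod n) (y : ℂ × ℂ),
  ‖y‖ < D.r → ∃ A : (ℂ × ℂ) ≃L[ℂ] (ℂ × ℂ), fderiv ℂ (fun y => y + D.w i y) y = A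

def S_HATB : Prop := ∀ (n : ℕ) (K : KatoData n) (D : ConjData K) (i : ZMod n) (t : ℂ),
  ∃ O : Set (ℂ × ℂ), IsOpen O ∧ (0, t) ∈ O ∧ DifferentiableOn ℂ (hatB (D.w i)) O ∧
    (∃ A : (ℂ × ℂ) ≃L[ℂ] (ℂ × ℂ), fderiv ℂ (hatB (D.w i)) (0, t) = A) ∧
    (∀ z ∈ O, bB z ∈ D.V i) ∧ (∀ t' : ℂ, hatB (D.w i) (0, t') = (0, t')) ∧
    ∀ z ∈ O, z.1 ≠ 0 → (hatB (D.w i) z).1 ≠ 0 ∧ bB (hatB (D.w i) z) = bB z + D.w i (bB z)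

def S_CHART : Prop := ∀ (n : ℕ) (K : KatoData n) (D : ConjData K) (X : Type)
  [TopologicalSpace X] [ChartedSpace (ℂ × ℂ) X] [IsManifold 𝓘(ℂ, ℂ × ℂ) ω X] (π : Pt n → X),
  Presents K X π → ∀ r ∈ dom2 D.V, ∃ e : OpenPartialHomeomorph X (ℂ × ℂ),
    e ∈ IsManifold.maximalAtlas 𝓘(ℂ, ℂ × ℂ) ω X ∧ π r ∈ e.source ∧
    (∀ᶠ r1 in nh r, e (π r1) = D.ch r1) ∧ ∀ z ∈ e.source, Good D π e z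

def S_LINK : Prop := ∀ (n : ℕ) (K : KatoData n) (D : ConjData K) (X : Type)
  [TopologicalSpace X] [ChartedSpace (ℂ × ℂ) X] [IsManifold 𝓘(ℂ, ℂ × ℂ) ω X] (π : Pt n → X),
  Presents K X π → ∀ r r' : Pt n, Glue2 K D.V r r' → ∀ c c' : X → ℂ × ℂ,
    (∀ᶠ r1 in nh r, c (π r1) = D.ch r1) → (∀ᶠ r1 in nh r', c' (π r1) = D.ch r1) →
    ∃ ρ, BirAt ρ (D.ch r) ∧ ∀ᶠ x in 𝓝 (π r), c' x = ρ (c x)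

def S_TRANS : Prop := ∀ (n : ℕ) (K : KatoData n) (D : ConjData K) (X : Type)
  [TopologicalSpace X] [ChartedSpace (ℂ × ℂ) X] [IsManifold 𝓘(ℂ, ℂ × ℂ) ω X] (π : Pt n → X),
  Presents K X π → ∀ r ∈ dom2 D.V, ∀ r' : Pt n, Relation.EqvGen (Glue2 K D.V) r r' →
    ∀ c c' : X → ℂ × ℂ,
    (∀ᶠ r1 in nh r, c (π r1) = D.ch r1) → (∀ᶠ r1 in nh r', c' (π r1) = D.ch r1) →
    ∃ ρ, BirAt ρ (D.ch r) ∧ ∀ᶠ x in 𝓝 (π r), c' x = ρ (c x)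

def S_ATLAS : Prop := ∀ (n : ℕ) [NeZero n] (K : KatoData n) (D : ConjData K) (X : Type)
  [TopologicalSpace X] [ChartedSpace (ℂ × ℂ) X] [IsManifold 𝓘(ℂ, ℂ × ℂ) ω X],
  IsKatoSurface K X → ∃ A, LocalAtlas X A

/-- On a compact surface, an atlas with locally rational changes of charts can be refined to a
birational structure. -/
def S_REFINE : Prop := ∀ (X : Type) [TopologicalSpace X] [T2Space X] [CompactSpace X]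
  [ChartedSpace (ℂ × ℂ) X] [IsManifold 𝓘(ℂ, ℂ × ℂ) ω X] (A), LocalAtlas X A →
  HasBirationalStructure X

/-- the main theorem -/
def S_MAIN : Prop := ∀ (n : ℕ) [NeZero n] (K : KatoData n), K.TraceZero → ∀ (X : Type)
  [TopologicalSpace X] [T2Space X] [CompactSpace X] [ChartedSpace (ℂ × ℂ) X]
  [IsManifold 𝓘(ℂ, ℂ × ℂ) ω X], IsKatoSurface K X → HasBirationalStructure X

theorem main_of (h1 : S_CONJ) (h2 : S_ATLAS) (h3 : S_REFINE) : S_MAIN := by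
  intro n _ K hK X _ _ _ _ _ hX
  obtain ⟨D⟩ := h1 n K hK
  obtain ⟨A, hA⟩ := h2 n K D X hX
  exact h3 X A hA

end Pool.Agent.H892.KT
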