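import Pool.Agent.H892.KT.Stm

/-!
# Kato surfaces and birational structures: Enoki surfaces (statements)

Second part of the project: Kato data whose germ has a derivative at `0` with nonzero trace. They
are conjugate to Kato data with linear `σ i`.
-/

set_option autoImplicit false

open Filter Topology Set
open scoped Manifold ContDiff

namespace Pool.Agent.H892.KT

/-- The derivative at `0` of the Kato germ `F = f_{n-1} ∘ … ∘ f_0 : U_0 → U_0` has a trace of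
absolute value `< 1`. -/
def KatoData.TraceLt {n : ℕ} (K : KatoData n) : Prop :=
  ‖LinearMap.trace ℂ (ℂ × ℂ)
    (fderiv ℂ (fun y => orb K.σ n 0 y) 0 : (ℂ × ℂ) →ₗ[ℂ] (ℂ × ℂ))‖ < 1

/-- geometric contraction of the orbits near the origin -/
def Geo {n : ℕ} (K : KatoData n) : Prop :=
  ∃ θ C δ : ℝ, 0 < θ ∧ θ < 1 ∧ 1 ≤ C ∧ 0 < δ ∧ ∀ i, ∀ y : ℂ × ℂ, ‖y‖ < δ →
    y ∈ K.U i ∧ ∀ k, ‖orb K.σ k i y‖ ≤ C * θ ^ k * ‖y‖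

/-- small forward invariant neighbourhoods of the origin -/
structure Nb {n : ℕ} (K : KatoData n) (V : ZMod n → Set (ℂ × ℂ)) (δ δ' : ℝ) : Prop where
  pos : 0 < δ'
  isOpen : ∀ i, IsOpen (V i)
  ball_sub : ∀ i, Metric.ball 0 δ' ⊆ V i
  sub_ball : ∀ i, V i ⊆ Metric.ball 0 δ
  subU : ∀ i, V i ⊆ K.U i
  maps : ∀ i, ∀ y ∈ V i, bA (K.σ i y) ∈ V (i + 1)

/-- `K` and `K'` are conjugate by the changes of coordinates `ψ i` (which preserve the direction of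
the next centre) -/
structure CC {n : ℕ} (K K' : KatoData n) (V : ZMod n → Set (ℂ × ℂ))
    (ψ : ZMod n → ℂ × ℂ → ℂ × ℂ) (δ' : ℝ) : Prop where
  pos : 0 < δ'
  isOpen : ∀ i, IsOpen (V i)
  ball_sub : ∀ i, Metric.ball 0 δ' ⊆ V i
  subU : ∀ i, V i ⊆ K.U i
  maps : ∀ i, ∀ y ∈ V i, bA (K.σ i y) ∈ V (i + 1)
  diff : ∀ i, DifferentiableOn ℂ (ψ i) (V i)
  inj : ∀ i, InjOn (ψ i) (V i)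
  zero : ∀ i, ψ i 0 = 0
  dir : ∀ i, (fderiv ℂ (ψ i) 0 (0, 1)).1 = 0
  U_eq : ∀ i, K'.U i = ψ i '' V i
  conj : ∀ i, ∀ y ∈ V i, bA (K'.σ i (ψ i y)) = ψ (i + 1) (bA (K.σ i y))

/-- the action of a linear map with `A (0, 1) = (0, *)` on the directions `(1, t)` -/
noncomputable def dirm (A : ℂ × ℂ →L[ℂ] ℂ × ℂ) (t : ℂ) : ℂ :=
  ((A (1, 0)).2 + (A (0, 1)).2 * t) / (A (1, 0)).1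

/-- the inverse of `dirm A` -/
noncomputable def dirinv (A : ℂ × ℂ →L[ℂ] ℂ × ℂ) (t : ℂ) : ℂ :=
  (t * (A (1, 0)).1 - (A (1, 0)).2) / (A (0, 1)).2

open Classical in
/-- names of points in the old coordinates -/
noncomputable def back {n : ℕ} (V : ZMod n → Set (ℂ × ℂ)) (ψ : ZMod n → ℂ × ℂ → ℂ × ℂ) :
    Pt n → Pt n
  | .P i y => .P i (Function.invFunOn (ψ i) (V i) y)
  | .R i z => if z.1 = 0 then .R i (0, dirinv (fderiv ℂ (ψ i) 0) z.2)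
      else .P i (Function.invFunOn (ψ i) (V i) (bB z))

/-- the second coordinate of `σ i` is `τ y_2` -/
def Form1 {n : ℕ} (K : KatoData n) (τ : ℂ) : Prop :=
  τ ≠ 0 ∧ ‖τ‖ < 1 ∧ ∀ i, ∀ Z ∈ K.U i, (K.σ i Z).2 = τ * Z.2

/-! ## Statements -/

def S_TR : Prop := ∀ (n : ℕ) [NeZero n] (K : KatoData n),
  (LinearMap.trace ℂ (ℂ × ℂ)
    (fderiv ℂ (fun y => orb K.σ n 0 y) 0 : (ℂ × ℂ) →ₗ[ℂ] (ℂ × ℂ)) =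
    ∏ i : ZMod n, (fderiv ℂ (K.σ i) 0 (0, 1)).2) ∧
  ((∃ i, (fderiv ℂ (K.σ i) 0 (0, 1)).2 = 0) → K.TraceZero)

def S_GEO : Prop := ∀ (n : ℕ) [NeZero n] (K : KatoData n),
  ‖∏ i : ZMod n, (fderiv ℂ (K.σ i) 0 (0, 1)).2‖ < 1 → Geo K

def S_GEO1 : Prop := ∀ (n : ℕ) [NeZero n] (K : KatoData n) (τ : ℂ), Form1 K τ → Geo K

def S_NBHD : Prop := ∀ (n : ℕ) [NeZero n] (K : KatoData n), Geo K → ∀ δ : ℝ, 0 < δ →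
  ∃ V δ', Nb K V δ δ'

def S_DIV : Prop := ∀ (V : Set (ℂ × ℂ)) (g : ℂ × ℂ → ℂ), IsOpen V → DifferentiableOn ℂ g V →
  (∀ p ∈ V, p.2 = 0 → g p = 0) → ∃ h : ℂ × ℂ → ℂ, DifferentiableOn ℂ h V ∧
    (∀ p ∈ V, g p = p.2 * h p) ∧ ∀ p ∈ V, p.2 = 0 → h p = fderiv ℂ g p (0, 1)

def S_PROD : Prop := ∀ (n : ℕ) [NeZero n] (K : KatoData n), Geo K →
  ∀ (g : ZMod n → ℂ × ℂ → ℂ) (δ : ℝ), 0 < δ →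
  (∀ i, DifferentiableOn ℂ (g i) (Metric.ball 0 δ)) → (∀ i, g i 0 = 1) →
  ∃ δ' : ℝ, 0 < δ' ∧ δ' ≤ δ ∧ ∃ H : ZMod n → ℂ × ℂ → ℂ,
    (∀ i, DifferentiableOn ℂ (H i) (Metric.ball 0 δ')) ∧ (∀ i, H i 0 = 1) ∧
    (∀ i, ∀ y ∈ Metric.ball (0 : ℂ × ℂ) δ', H i y ≠ 0) ∧
    ∀ i, ∀ y ∈ Metric.ball (0 : ℂ × ℂ) δ', y ∈ K.U i ∧
      (bA (K.σ i y) ∈ Metric.ball (0 : ℂ × ℂ) δ' → H i y = g i y * H (i + 1) (bA (K.σ i y)))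

def S_EIG : Prop := ∀ (n : ℕ) [NeZero n] (K : KatoData n), Geo K →
  (∀ i, (fderiv ℂ (K.σ i) 0 (0, 1)).2 ≠ 0) →
  ‖∏ i : ZMod n, (fderiv ℂ (K.σ i) 0 (0, 1)).2‖ < 1 →
  ∃ (τ : ℂ) (δ : ℝ) (κ : ZMod n → ℂ) (H : ZMod n → ℂ × ℂ → ℂ), τ ≠ 0 ∧ ‖τ‖ < 1 ∧ 0 < δ ∧
    (∀ i, κ i ≠ 0) ∧ (∀ i, DifferentiableOn ℂ (H i) (Metric.ball 0 δ)) ∧ (∀ i, H i 0 = 1) ∧
    (∀ i, ∀ y ∈ Metric.ball (0 : ℂ × ℂ) δ, H i y ≠ 0) ∧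
    ∀ i, ∀ y ∈ Metric.ball (0 : ℂ × ℂ) δ, y ∈ K.U i ∧
      (bA (K.σ i y) ∈ Metric.ball (0 : ℂ × ℂ) δ →
        κ (i + 1) * (K.σ (i + 1) (bA (K.σ i y))).2 * H (i + 1) (bA (K.σ i y)) =
          τ * (κ i * (K.σ i y).2 * H i y))

def S_MKK : Prop := ∀ (n : ℕ) [NeZero n] (K : KatoData n) (V : ZMod n → Set (ℂ × ℂ)) (δ δ' : ℝ)
  (ψ s : ZMod n → ℂ × ℂ → ℂ × ℂ), Nb K V δ δ' → (∀ i, DifferentiableOn ℂ (ψ i) (V i)) →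
  (∀ i, InjOn (ψ i) (V i)) → (∀ i, ψ i 0 = 0) → (∀ i, DifferentiableOn ℂ (s i) (V i)) →
  (∀ i, InjOn (s i) (V i)) → (∀ i, s i 0 = 0) →
  (∀ i, ∀ y ∈ V i, bA (s i y) = ψ (i + 1) (bA (K.σ i y))) →
  ∃ K' : KatoData n, (∀ i, K'.U i = ψ i '' V i) ∧ ∀ i, ∀ y ∈ V i, K'.σ i (ψ i y) = s i y

def S_LIFT : Prop := ∀ (V : Set (ℂ × ℂ)) (ψ : ℂ × ℂ → ℂ × ℂ), IsOpen V → (0 : ℂ × ℂ) ∈ V →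
  DifferentiableOn ℂ ψ V → ψ 0 = 0 → (fderiv ℂ ψ 0 (0, 1)).1 = 0 →
  (∃ A : (ℂ × ℂ) ≃L[ℂ] (ℂ × ℂ), fderiv ℂ ψ 0 = A) → ∀ t : ℂ,
  ∃ (O : Set (ℂ × ℂ)) (Ψ : ℂ × ℂ → ℂ × ℂ), IsOpen O ∧ (0, t) ∈ O ∧ DifferentiableOn ℂ Ψ O ∧
    (∃ A : (ℂ × ℂ) ≃L[ℂ] (ℂ × ℂ), fderiv ℂ Ψ (0, t) = A) ∧
    (∀ z ∈ O, bB z ∈ V ∧ bB (Ψ z) = ψ (bB z) ∧ ((Ψ z).1 = 0 ↔ z.1 = 0)) ∧
    ∀ t' : ℂ, (0, t') ∈ O → Ψ (0, t') = (0, dirm (fderiv ℂ ψ 0) t')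

/-- Data of a coordinate change: the derivatives at `0` are invertible, and the relation on the
exceptional curves. -/
def S_DIR : Prop := ∀ (n : ℕ) (K K' : KatoData n) (V : ZMod n → Set (ℂ × ℂ))
  (ψ : ZMod n → ℂ × ℂ → ℂ × ℂ) (δ' : ℝ), CC K K' V ψ δ' →
  (∀ i, ∃ A : (ℂ × ℂ) ≃L[ℂ] (ℂ × ℂ), fderiv ℂ (ψ i) 0 = A) ∧
  ∀ i, ∀ y ∈ V i, (K.σ i y).1 ≠ 0 → (K.σ i y).2 = 0 → (K'.σ i (ψ i y)).1 ≠ 0 ∧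
    (K'.σ i (ψ i y)).2 = 0 ∧ (K'.σ i (ψ i y)).1⁻¹ = dirm (fderiv ℂ (ψ (i + 1)) 0) (K.σ i y).1⁻¹

def S_TPFIB : Prop := ∀ (n : ℕ) (K K' : KatoData n) (V : ZMod n → Set (ℂ × ℂ))
  (ψ : ZMod n → ℂ × ℂ → ℂ × ℂ) (δ' : ℝ), CC K K' V ψ δ' →
  (∀ r ∈ K'.dom, back V ψ r ∈ dom2 V) ∧ (∀ r ∈ dom2 V, ∃ r' ∈ K'.dom, back V ψ r' = r) ∧
  ∀ r ∈ K'.dom, ∀ r' ∈ K'.dom,
    (Relation.EqvGen K.Glue (back V ψ r) (back V ψ r') ↔ Relation.EqvGen K'.Glue r r')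

def S_TPLOC : Prop := ∀ (n : ℕ) (K K' : KatoData n) (V : ZMod n → Set (ℂ × ℂ))
  (ψ : ZMod n → ℂ × ℂ → ℂ × ℂ) (δ' : ℝ), CC K K' V ψ δ' → ∀ (X : Type) [TopologicalSpace X]
  [ChartedSpace (ℂ × ℂ) X] [IsManifold 𝓘(ℂ, ℂ × ℂ) ω X] (π : Pt n → X), Presents K X π →
  (∀ i, IsLocalDiffeomorphOn 𝓘(ℂ, ℂ × ℂ) 𝓘(ℂ, ℂ × ℂ) ω (fun y => π (back V ψ (.P i y)))
    (K'.U i \ {0})) ∧
  ∀ i, IsLocalDiffeomorphOn 𝓘(ℂ, ℂ × ℂ) 𝓘(ℂ, ℂ × ℂ) ω (fun z => π (back V ψ (.R i z)))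
    {z | bB z ∈ K'.U i}

def S_TP : Prop := ∀ (n : ℕ) (K K' : KatoData n) (V : ZMod n → Set (ℂ × ℂ))
  (ψ : ZMod n → ℂ × ℂ → ℂ × ℂ) (δ' : ℝ), CC K K' V ψ δ' → ∀ (X : Type) [TopologicalSpace X]
  [ChartedSpace (ℂ × ℂ) X] [IsManifold 𝓘(ℂ, ℂ × ℂ) ω X], IsKatoSurface K X → IsKatoSurface K' X

def S_ST1 : Prop := ∀ (n : ℕ) [NeZero n] (K : KatoData n), Geo K →
  (∀ i, (fderiv ℂ (K.σ i) 0 (0, 1)).2 ≠ 0) →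
  ‖∏ i : ZMod n, (fderiv ℂ (K.σ i) 0 (0, 1)).2‖ < 1 →
  ∃ (K' : KatoData n) (τ : ℂ) (V : ZMod n → Set (ℂ × ℂ)) (ψ : ZMod n → ℂ × ℂ → ℂ × ℂ) (δ' : ℝ),
    Form1 K' τ ∧ CC K K' V ψ δ'

/-- primitives in the first variable (the ball is a polydisc) -/
def S_PRIM : Prop := ∀ (δ : ℝ) (h : ℂ × ℂ → ℂ), 0 < δ → DifferentiableOn ℂ h (Metric.ball 0 δ) →
  ∃ χ : ℂ × ℂ → ℂ, DifferentiableOn ℂ χ (Metric.ball 0 δ) ∧ (∀ z : ℂ, χ (0, z) = 0) ∧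
    ∀ Y ∈ Metric.ball (0 : ℂ × ℂ) δ, fderiv ℂ χ Y (1, 0) = h Y

def S_CST : Prop := ∀ (δ : ℝ) (F : ℂ × ℂ → ℂ), DifferentiableOn ℂ F (Metric.ball 0 δ) →
  (∀ Y ∈ Metric.ball (0 : ℂ × ℂ) δ, fderiv ℂ F Y (1, 0) = 0) →
  ∀ Y ∈ Metric.ball (0 : ℂ × ℂ) δ, F Y = F (0, Y.2)

def S_REST : Prop := ∀ (n : ℕ) [NeZero n] (K : KatoData n) (τ : ℂ) (δ : ℝ) (c : ZMod n → ℂ)
  (h χ : ZMod n → ℂ × ℂ → ℂ), Form1 K τ → 0 < δ →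
  (∀ i, Metric.ball 0 δ ⊆ K.U i) → (∀ i, DifferentiableOn ℂ (χ i) (Metric.ball 0 δ)) →
  (∀ i, ∀ z : ℂ, χ i (0, z) = 0) →
  (∀ i, ∀ Y ∈ Metric.ball (0 : ℂ × ℂ) δ, fderiv ℂ (χ i) Y (1, 0) = h i Y) →
  (∀ i, ∀ Y ∈ Metric.ball (0 : ℂ × ℂ) δ, bA (K.σ i Y) ∈ Metric.ball (0 : ℂ × ℂ) δ →
    c i * h i Y = (fderiv ℂ (K.σ i) Y (1, 0)).1 * h (i + 1) (bA (K.σ i Y))) →
  ∃ (δ₁ : ℝ) (r : ZMod n → ℂ → ℂ), 0 < δ₁ ∧ δ₁ ≤ δ ∧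
    (∀ i, DifferentiableOn ℂ (r i) (Metric.ball 0 δ₁)) ∧ (∀ i, r i 0 = 0) ∧
    ∀ i, ∀ Y ∈ Metric.ball (0 : ℂ × ℂ) δ₁, χ (i + 1) (bA (K.σ i Y)) =
      τ * Y.2 * (c i * χ i Y + r i Y.2)

def S_QSEQ : Prop := ∀ (n : ℕ) [NeZero n] (c : ZMod n → ℂ) (τ : ℂ) (r : ZMod n → ℕ → ℂ)
  (C R : ℝ), (∀ i, c i ≠ 0) → ‖τ‖ < 1 → 0 ≤ C → 1 ≤ R → (∀ i k, ‖r i k‖ ≤ C * R ^ k) →
  ∃ (q : ZMod n → ℕ → ℂ) (C' : ℝ), (∀ i k, ‖q i k‖ ≤ C' * R ^ k) ∧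
    ∀ i k, c i * q i k = r i k + τ ^ k * q (i + 1) (k + 1)

def S_QF : Prop := ∀ (n : ℕ) [NeZero n] (c : ZMod n → ℂ) (τ : ℂ) (r : ZMod n → ℂ → ℂ) (ρ : ℝ),
  (∀ i, c i ≠ 0) → τ ≠ 0 → ‖τ‖ < 1 → 0 < ρ →
  (∀ i, DifferentiableOn ℂ (r i) (Metric.ball 0 ρ)) → (∀ i, r i 0 = 0) →
  ∃ (ρ' : ℝ) (q : ZMod n → ℂ → ℂ) (p : ZMod n → ℂ), 0 < ρ' ∧ ρ' ≤ ρ ∧
    (∀ i, DifferentiableOn ℂ (q i) (Metric.ball 0 ρ')) ∧ (∀ i, q i 0 = 0) ∧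
    (∀ i, deriv (q i) 0 = 0) ∧
    ∀ i, ∀ z ∈ Metric.ball (0 : ℂ) ρ',
      q (i + 1) (τ * z) + τ * z * r i z = τ * z * (c i * q i z + p i * z)

def S_ST2 : Prop := ∀ (n : ℕ) [NeZero n] (K : KatoData n) (τ : ℂ), Form1 K τ →
  ∃ (K' : KatoData n) (c p : ZMod n → ℂ) (V : ZMod n → Set (ℂ × ℂ))
    (ψ : ZMod n → ℂ × ℂ → ℂ × ℂ) (δ' : ℝ), (∀ i, c i ≠ 0) ∧
    (∀ i, ∀ Z ∈ K'.U i, K'.σ i Z = (c i * Z.1 + p i * Z.2, τ * Z.2)) ∧ CC K K' V ψ δ'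

def S_ST3 : Prop := ∀ (n : ℕ) [NeZero n] (K : KatoData n) (τ : ℂ) (c p : ZMod n → ℂ), τ ≠ 0 →
  ‖τ‖ < 1 → (∀ i, c i ≠ 0) →
  (∀ i, ∀ Z ∈ K.U i, K.σ i Z = (c i * Z.1 + p i * Z.2, τ * Z.2)) → Nonempty (ConjData K)

/-- all Kato surfaces -/
def S_ALL : Prop := ∀ (n : ℕ) [NeZero n] (K : KatoData n), K.TraceLt → ∀ (X : Type)
  [TopologicalSpace X] [T2Space X] [CompactSpace X] [ChartedSpace (ℂ × ℂ) X]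
  [IsManifold 𝓘(ℂ, ℂ × ℂ) ω X], IsKatoSurface K X → HasBirationalStructure X

theorem all_of (h1 : S_MAIN) (h2 : S_ATLAS) (h3 : S_REFINE) (h4 : S_TR) (h5 : S_GEO)
    (h6 : S_TP) (h7 : S_ST1) (h8 : S_ST2) (h9 : S_ST3) : S_ALL := by
  intro n _ K hK X _ _ _ _ _ hX
  obtain ⟨ht, hz⟩ := h4 n K
  by_cases h : ∃ i, (fderiv ℂ (K.σ i) 0 (0, 1)).2 = 0
  · exact h1 n K (hz h) X hX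
  push Not at h
  have hlt : ‖∏ i : ZMod n, (fderiv ℂ (K.σ i) 0 (0, 1)).2‖ < 1 := by
    rw [← ht]; exact hK
  obtain ⟨K1, τ, V1, ψ1, δ1, hf, hc1⟩ := h7 n K (h5 n K hlt) h hlt
  obtain ⟨K2, c, p, V2, ψ2, δ2, hc, hl, hc2⟩ := h8 n K1 τ hf
  obtain ⟨D⟩ := h9 n K2 τ c p hf.1 hf.2.1 hc hl
  obtain ⟨A, hA⟩ := h2 n K2 D X (h6 n K1 K2 V2 ψ2 δ2 hc2 X (h6 n K K1 V1 ψ1 δ1 hc1 X hX))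
  exact h3 X A hA

end Pool.Agent.H892.KT
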