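import Pool.Agent.H892.KT.Defs

/-!
# Kato surfaces and birational structures: auxiliary definitions
-/

set_option autoImplicit false

open Filter Topology Set
open scoped Manifold ContDiff

namespace Pool.Agent.H892.KT

/-! ## Rational and birational germs -/

/-- `τ` is given by rational functions near `p` -/
def RatAt (τ : ℂ × ℂ → ℂ × ℂ) (p : ℂ × ℂ) : Prop :=
  ∃ P₁ Q₁ P₂ Q₂ : MvPolynomial (Fin 2) ℂ, Q₁ ≠ 0 ∧ Q₂ ≠ 0 ∧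
    ∀ᶠ q in 𝓝 p, ev Q₁ q * (τ q).1 = ev P₁ q ∧ ev Q₂ q * (τ q).2 = ev P₂ q

/-- `τ` is given by rational functions on `V` -/
def RatOn (τ : ℂ × ℂ → ℂ × ℂ) (V : Set (ℂ × ℂ)) : Prop :=
  ∃ P₁ Q₁ P₂ Q₂ : MvPolynomial (Fin 2) ℂ, Q₁ ≠ 0 ∧ Q₂ ≠ 0 ∧
    ∀ q ∈ V, ev Q₁ q * (τ q).1 = ev P₁ q ∧ ev Q₂ q * (τ q).2 = ev P₂ q

/-- `τ` is a birational local homeomorphism at `p` -/
def BirAt (τ : ℂ × ℂ → ℂ × ℂ) (p : ℂ × ℂ) : Prop :=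
  ∃ e : OpenPartialHomeomorph (ℂ × ℂ) (ℂ × ℂ), p ∈ e.source ∧ (∀ᶠ q in 𝓝 p, τ q = e q) ∧
    RatAt e p ∧ RatAt e.symm (e p)

/-- birational local biholomorphisms at `0` -/
structure BG (e : OpenPartialHomeomorph (ℂ × ℂ) (ℂ × ℂ)) : Prop where
  mem : (0 : ℂ × ℂ) ∈ e.source
  zero : e 0 = 0
  diff : DifferentiableOn ℂ e e.source
  diff' : DifferentiableOn ℂ e.symm e.target
  rat : ∀ p ∈ e.source, RatAt e p
  rat' : ∀ p ∈ e.target, RatAt e.symm p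

/-- homogeneous polynomials of degree `k` -/
noncomputable def hp (k : ℕ) (c : ℕ → ℂ) (y : ℂ × ℂ) : ℂ :=
  ∑ j ∈ Finset.range (k + 1), c j * y.1 ^ j * y.2 ^ (k - j)

/-- homogeneous polynomial maps of degree `k` -/
noncomputable def hm (k : ℕ) (c d : ℕ → ℂ) (y : ℂ × ℂ) : ℂ × ℂ := (hp k c y, hp k d y)

/-- `h` is the term of degree `k` of a birational germ `id + h + O(k + 1)` -/
def InG (k : ℕ) (h : ℂ × ℂ → ℂ × ℂ) : Prop :=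
  ∃ e, BG e ∧ (fun y => e y - y - h y) =O[𝓝 0] fun y => ‖y‖ ^ (k + 1)

/-! ## Lifts to the blow-up -/

/-- If `p = (a, b)`, then `bA (hat p v) = bA p + v`: the lift of the translation by `v` to the chart
`(a, b)` of the blow-up -/
noncomputable def hat (p v : ℂ × ℂ) : ℂ × ℂ :=
  ((p.1 + v.1 / p.2) / (1 + v.2 / p.2), p.2 * (1 + v.2 / p.2))

/-- the lift of `id + w` to the chart `(s, t)` of the blow-up -/
noncomputable def hatB (w : ℂ × ℂ → ℂ × ℂ) (z : ℂ × ℂ) : ℂ × ℂ :=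
  (z.1 + (w (bB z)).1, (z.2 + (w (bB z)).2 / z.1) / (1 + (w (bB z)).1 / z.1))

/-! ## Weights -/

/-- small forward invariant neighbourhoods `V i` and weights `W i` -/
structure Wt {n : ℕ} (K : KatoData n) (N : ℕ) (ε : ℝ) (V : ZMod n → Set (ℂ × ℂ))
    (W : ZMod n → ℂ × ℂ → ℝ) : Prop where
  isOpen : ∀ i, IsOpen (V i)
  zero_mem : ∀ i, (0 : ℂ × ℂ) ∈ V i
  subU : ∀ i, V i ⊆ K.U i
  small : ∀ i, ∀ y ∈ V i, ‖y‖ < ε
  maps : ∀ i, ∀ y ∈ V i, bA (K.σ i y) ∈ V (i + 1)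
  norm_le : ∀ i, ∀ y ∈ V i, ‖K.σ i y‖ ≤ ε
  lower : ∀ i, ∀ y ∈ V i, ‖y‖ ^ N ≤ W i y
  upper : ∀ i, ∀ y ∈ V i, W i y ≤ ‖y‖ ^ 3
  step : ∀ i, ∀ y ∈ V i, W (i + 1) (bA (K.σ i y)) ≤ ε * ‖(K.σ i y).2‖ * W i y

/-- the superattracting estimate -/
def Quad {n : ℕ} (K : KatoData n) : Prop :=
  ∃ M : ℕ, 2 ≤ M ∧ ∃ C δ : ℝ, 0 < δ ∧ 0 ≤ C ∧ ∀ i, ∀ y : ℂ × ℂ, ‖y‖ < δ →
    y ∈ K.U i ∧ ‖orb K.σ M i y‖ ≤ C * ‖y‖ ^ 2

/-! ## Conjugation to birational Kato data -/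

/-- birational germs `e i` and a conjugation `id + w i` of the Kato data to those of the `e i` -/
structure ConjData {n : ℕ} (K : KatoData n) where
  V : ZMod n → Set (ℂ × ℂ)
  w : ZMod n → ℂ × ℂ → ℂ × ℂ
  e : ZMod n → OpenPartialHomeomorph (ℂ × ℂ) (ℂ × ℂ)
  r : ℝ
  r_pos : 0 < r
  r_le : r ≤ 1 / 2
  bg : ∀ i, BG (e i)
  isOpen_V : ∀ i, IsOpen (V i)
  zero_mem : ∀ i, (0 : ℂ × ℂ) ∈ V i
  subU : ∀ i, V i ⊆ K.U i
  small : ∀ i, ∀ y ∈ V i, ‖y‖ < r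
  maps : ∀ i, ∀ y ∈ V i, bA (K.σ i y) ∈ V (i + 1)
  norm_le : ∀ i, ∀ y ∈ V i, ‖K.σ i y‖ ≤ 1
  w_diff : ∀ i, DifferentiableOn ℂ (w i) (Metric.ball 0 r)
  w_le : ∀ i, ∀ y ∈ Metric.ball (0 : ℂ × ℂ) r, ‖w i y‖ ≤ ‖y‖ ^ 3
  w_fd : ∀ i, ∀ y ∈ Metric.ball (0 : ℂ × ℂ) r, ‖fderiv ℂ (w i) y‖ ≤ 1 / 2
  mem : ∀ i, ∀ y ∈ V i, y + w i y ∈ (e i).source
  eq : ∀ i, ∀ y ∈ V i, e i (y + w i y) = hat (K.σ i y) (w (i + 1) (bA (K.σ i y)))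

/-! ## The reduced equivalence relation -/

/-- the points `y ≠ 0` of `V i` and the points `(0, t)` of the exceptional curves -/
def dom2 {n : ℕ} (V : ZMod n → Set (ℂ × ℂ)) : Set (Pt n) :=
  {r | match r with
    | .P i y => y ∈ V i ∧ y ≠ 0
    | .R _ z => z.1 = 0}

/-- the reduced identifications -/
inductive Glue2 {n : ℕ} (K : KatoData n) (V : ZMod n → Set (ℂ × ℂ)) : Pt n → Pt n → Prop
  | shift (i : ZMod n) (y : ℂ × ℂ) (hy : y ∈ V i) (hb : (K.σ i y).2 ≠ 0) :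
      Glue2 K V (.P i y) (.P (i + 1) (bA (K.σ i y)))
  | exc (i : ZMod n) (y : ℂ × ℂ) (hy : y ∈ V i) (ha : (K.σ i y).1 ≠ 0) (hb : (K.σ i y).2 = 0) :
      Glue2 K V (.P i y) (.R (i + 1) (0, (K.σ i y).1⁻¹))

/-! ## Charts -/

/-- the points near `r` -/
noncomputable def nh {n : ℕ} : Pt n → Filter (Pt n)
  | .P i y => Filter.map (Pt.P i) (𝓝 y)
  | .R i z => Filter.map (Pt.R i) (𝓝 z)

/-- the coordinates given by the conjugation -/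
noncomputable def ConjData.ch {n : ℕ} {K : KatoData n} (D : ConjData K) : Pt n → ℂ × ℂ
  | .P i y => y + D.w i y
  | .R i z => hatB (D.w i) z

/-- near `z`, the map `e` is a birational germ in the coordinates given by the conjugation -/
def Good {n : ℕ} {K : KatoData n} (D : ConjData K) {X : Type} (π : Pt n → X) (e : X → ℂ × ℂ)
    (z : X) : Prop :=
  ∃ r ∈ dom2 D.V, π r = z ∧ ∃ ρ, BirAt ρ (D.ch r) ∧ ∀ᶠ r1 in nh r, e (π r1) = ρ (D.ch r1)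

/-- a holomorphic atlas with locally rational changes of charts -/
def LocalAtlas (X : Type) [TopologicalSpace X] [ChartedSpace (ℂ × ℂ) X]
    (A : Set (OpenPartialHomeomorph X (ℂ × ℂ))) : Prop :=
  (∀ e ∈ A, e ∈ IsManifold.maximalAtlas 𝓘(ℂ, ℂ × ℂ) ω X) ∧
    (∀ x : X, ∃ e ∈ A, x ∈ e.source) ∧
    ∀ e ∈ A, ∀ e' ∈ A, ∀ p ∈ (e.symm.trans e').source, RatAt (e.symm.trans e') p

end Pool.Agent.H892.KT
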