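import Mathlib

/-!
# Kato surfaces and birational structures (MP_686bb6_ag): definitions

The blow-up of the origin of `ℂ²` has the two charts `bA (a, b) = (a b, b)` and
`bB (s, t) = (s, s t)`; the change of coordinates is `(s, t) = bK (a, b) = (a b, 1 / a)`.
-/

set_option autoImplicit false

open Filter Topology Set
open scoped Manifold ContDiff

namespace Pool.Agent.H892.KT

/-- the blow-up of the origin of `ℂ²` in the chart with coordinates `(a, b)`, `(x, y) = (a b, b)` -/
def bA (p : ℂ × ℂ) : ℂ × ℂ := (p.1 * p.2, p.2)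

/-- the blow-up of the origin of `ℂ²` in the chart with coordinates `(s, t)`, `(x, y) = (s, s t)` -/
def bB (p : ℂ × ℂ) : ℂ × ℂ := (p.1, p.1 * p.2)

/-- the change of coordinates `(a, b) ↦ (s, t)` between the two charts of the blow-up (`a ≠ 0`) -/
noncomputable def bK (p : ℂ × ℂ) : ℂ × ℂ := (p.1 * p.2, p.1⁻¹)

/-- the forward orbits `y, f_i y, f_{i+1} f_i y, …`, where `f_i = bA ∘ σ_i` -/
def orb {n : ℕ} (σ : ZMod n → ℂ × ℂ → ℂ × ℂ) : ℕ → ZMod n → ℂ × ℂ → ℂ × ℂ
  | 0, _, y => y
  | k + 1, i, y => orb σ k (i + 1) (bA (σ i y))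

/-- Kato data for `n` blow-ups. For every `i` modulo `n` there is an open neighbourhood `U i` of the
origin of `ℂ²` and an injective holomorphic map `σ i` from `U i` to the chart `(a, b)` of the
blow-up of `U (i + 1)` at the origin, which maps the origin to the point `(0, 0)` of the exceptional
curve `b = 0`. The maps `f i = bA ∘ σ i : U i → U (i + 1)` are contracting: all forward orbits
converge to `0`. -/
structure KatoData (n : ℕ) where
  /-- the neighbourhoods of the origin -/
  U : ZMod n → Set (ℂ × ℂ)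
  /-- the maps to the blow-ups -/
  σ : ZMod n → ℂ × ℂ → ℂ × ℂ
  isOpen_U : ∀ i, IsOpen (U i)
  zero_mem : ∀ i, (0 : ℂ × ℂ) ∈ U i
  diff : ∀ i, DifferentiableOn ℂ (σ i) (U i)
  inj : ∀ i, InjOn (σ i) (U i)
  map_zero : ∀ i, σ i 0 = 0
  maps : ∀ i, ∀ y ∈ U i, bA (σ i y) ∈ U (i + 1)
  contr : ∀ i, ∀ y ∈ U i, Tendsto (fun k => orb σ k i y) atTop (𝓝 0)

/-- The Kato germ `F = f_{n-1} ∘ … ∘ f_0 : U_0 → U_0` has a nilpotent derivative at `0`
(equivalently: trace zero). -/
def KatoData.TraceZero {n : ℕ} (K : KatoData n) : Prop :=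
  IsNilpotent (fderiv ℂ (fun y => orb K.σ n 0 y) 0)

/-- Names of points: `P i y` is the point `y` of `U i`, and `R i (s, t)` is the point with the
coordinates `(s, t)` of the blow-up of `U i` at the origin. -/
inductive Pt (n : ℕ) : Type
  | P (i : ZMod n) (y : ℂ × ℂ) : Pt n
  | R (i : ZMod n) (z : ℂ × ℂ) : Pt n

/-- The points which are used: the nonzero points of `U i`, and the points `R i (s, t)` of the
blow-up of `U i` (with image `(s, s t)` in `U i`), that is all points of the blow-up of `U i` except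
for the point `(a, b) = (0, 0)` of the exceptional curve. -/
def KatoData.dom {n : ℕ} (K : KatoData n) : Set (Pt n) :=
  {r | match r with
    | .P i y => y ∈ K.U i ∧ y ≠ 0
    | .R i z => bB z ∈ K.U i}

/-- The identifications which define the Kato surface. `blow`: a point of the blow-up of `U i`
outside of the exceptional curve is identified with its image in `U i`. `shift`, `exc`: a point
`y ≠ 0` of `U i` is identified with the point `σ i y` of the blow-up of `U (i + 1)`, which is the
point `bA (σ i y)` of `U (i + 1)` if it is not on the exceptional curve `b = 0`, and which has the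
coordinates `(s, t) = bK (σ i y)` if `a ≠ 0`. -/
inductive KatoData.Glue {n : ℕ} (K : KatoData n) : Pt n → Pt n → Prop
  | blow (i : ZMod n) (z : ℂ × ℂ) (hz : z.1 ≠ 0) (hU : bB z ∈ K.U i) :
      K.Glue (.R i z) (.P i (bB z))
  | shift (i : ZMod n) (y : ℂ × ℂ) (hy : y ∈ K.U i) (hb : (K.σ i y).2 ≠ 0) :
      K.Glue (.P i y) (.P (i + 1) (bA (K.σ i y)))
  | exc (i : ZMod n) (y : ℂ × ℂ) (hy : y ∈ K.U i) (ha : (K.σ i y).1 ≠ 0) :
      K.Glue (.P i y) (.R (i + 1) (bK (K.σ i y)))

/-- `π` presents the complex surface `X` as the Kato surface of the Kato data `K`: it is locally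
biholomorphic on `U i ∖ {0}` and on the chart `(s, t)` of the blow-up of `U i`, surjective, and two
points have the same image if and only if they are equivalent under the equivalence relation
generated by the identifications. -/
structure Presents {n : ℕ} (K : KatoData n) (X : Type) [TopologicalSpace X]
    [ChartedSpace (ℂ × ℂ) X] (π : Pt n → X) : Prop where
  locP : ∀ i, IsLocalDiffeomorphOn 𝓘(ℂ, ℂ × ℂ) 𝓘(ℂ, ℂ × ℂ) ω (fun y => π (.P i y)) (K.U i \ {0})
  locR : ∀ i, IsLocalDiffeomorphOn 𝓘(ℂ, ℂ × ℂ) 𝓘(ℂ, ℂ × ℂ) ω (fun z => π (.R i z))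
    {z | bB z ∈ K.U i}
  surj : ∀ x : X, ∃ r ∈ K.dom, π r = x
  fibre : ∀ r ∈ K.dom, ∀ r' ∈ K.dom, π r = π r' ↔ Relation.EqvGen K.Glue r r'

/-- `X` is the Kato surface of the Kato data `K` -/
def IsKatoSurface {n : ℕ} (K : KatoData n) (X : Type) [TopologicalSpace X]
    [ChartedSpace (ℂ × ℂ) X] : Prop :=
  ∃ π : Pt n → X, Presents K X π

/-! ## Birational structures -/

/-- the value of a polynomial in two variables -/
noncomputable def ev (P : MvPolynomial (Fin 2) ℂ) (p : ℂ × ℂ) : ℂ := MvPolynomial.eval ![p.1, p.2] P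

/-- the field `ℂ(x, y)`; its automorphisms over `ℂ` are the birational self-maps of `ℙ²` -/
abbrev RatField : Type := FractionRing (MvPolynomial (Fin 2) ℂ)

/-- The map `τ` is on the set `V ⊆ ℂ²` the restriction of the birational self-map
`(Φ x, Φ y)` of `ℙ²`, where `Φ` is an automorphism of the field `ℂ(x, y)`: if `Φ x = P / Q`, then
the first coordinate of `τ` satisfies `Q τ_1 = P` on `V`, and if `Φ y = P / Q`, then `Q τ_2 = P` on
`V`. -/
def Restricts (Φ : RatField ≃ₐ[ℂ] RatField) (τ : ℂ × ℂ → ℂ × ℂ) (V : Set (ℂ × ℂ)) : Prop :=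
  ∀ P Q : MvPolynomial (Fin 2) ℂ,
    (algebraMap _ RatField Q * Φ (algebraMap (MvPolynomial (Fin 2) ℂ) RatField (MvPolynomial.X 0)) =
      algebraMap _ RatField P → ∀ p ∈ V, ev Q p * (τ p).1 = ev P p) ∧
    (algebraMap _ RatField Q * Φ (algebraMap (MvPolynomial (Fin 2) ℂ) RatField (MvPolynomial.X 1)) =
      algebraMap _ RatField P → ∀ p ∈ V, ev Q p * (τ p).2 = ev P p)

/-- The complex surface `X` has a birational structure: there is a holomorphic atlas `A` (of charts
with values in `ℂ² ⊂ ℙ²`) such that every change of chart is the restriction of a birational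
self-map of `ℙ²`. -/
def HasBirationalStructure (X : Type) [TopologicalSpace X] [ChartedSpace (ℂ × ℂ) X] : Prop :=
  ∃ A : Set (OpenPartialHomeomorph X (ℂ × ℂ)),
    (∀ e ∈ A, e ∈ IsManifold.maximalAtlas 𝓘(ℂ, ℂ × ℂ) ω X) ∧
    (∀ x : X, ∃ e ∈ A, x ∈ e.source) ∧
    ∀ e ∈ A, ∀ e' ∈ A, ∃ Φ : RatField ≃ₐ[ℂ] RatField,
      Restricts Φ (e.symm.trans e') (e.symm.trans e').source

end Pool.Agent.H892.KT
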