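import Pool.Agent.H892.KT.W.ANA
import Pool.Agent.H892.KT.W.FD
import Pool.Agent.H892.KT.W.TRACE
import Pool.Agent.H892.KT.W.QUAD
import Pool.Agent.H892.KT.W.LIP
import Pool.Agent.H892.KT.W.WEIGHT
import Pool.Agent.H892.KT.W.HATLIP
import Pool.Agent.H892.KT.W.QUOT
import Pool.Agent.H892.KT.W.INVLIP
import Pool.Agent.H892.KT.W.OP
import Pool.Agent.H892.KT.W.LIM
import Pool.Agent.H892.KT.W.FIX
import Pool.Agent.H892.KT.W.INVD
import Pool.Agent.H892.KT.W.CONJ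
import Pool.Agent.H892.KT.W.RATCOMP
import Pool.Agent.H892.KT.W.BIRCOMP
import Pool.Agent.H892.KT.W.BIRINV
import Pool.Agent.H892.KT.W.BIRBASIC
import Pool.Agent.H892.KT.W.UNIQ
import Pool.Agent.H892.KT.W.CONN
import Pool.Agent.H892.KT.W.AUT
import Pool.Agent.H892.KT.W.JTAY
import Pool.Agent.H892.KT.W.JLINBG
import Pool.Agent.H892.KT.W.JCOMP
import Pool.Agent.H892.KT.W.JADD
import Pool.Agent.H892.KT.W.JLIN
import Pool.Agent.H892.KT.W.JSH
import Pool.Agent.H892.KT.W.VDM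
import Pool.Agent.H892.KT.W.JSPAN
import Pool.Agent.H892.KT.W.JALL
import Pool.Agent.H892.KT.W.JSTEP
import Pool.Agent.H892.KT.W.JETS
import Pool.Agent.H892.KT.W.RED1
import Pool.Agent.H892.KT.W.RED2
import Pool.Agent.H892.KT.W.MK
import Pool.Agent.H892.KT.W.PHI
import Pool.Agent.H892.KT.W.HATB
import Pool.Agent.H892.KT.W.CHART
import Pool.Agent.H892.KT.W.LINK
import Pool.Agent.H892.KT.W.TRANS
import Pool.Agent.H892.KT.W.ATLAS
import Pool.Agent.H892.KT.W.REFINE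

/-!
# Kato surfaces and birational structures: assembly

The lemmas were proved by teammates (helpers 84, 92, 101, 106, 164, 190, 195, 200, 241, 280, 286,
287, 294, 297, 308, 331, 335, 336, 348, 353, 387, 411, 448, 549, 571, 612, 653, 661, 668, 670, 722,
727, 729, 782, 790, 800, 828, 874, 897, 922, 924, 981).
-/

set_option autoImplicit false

namespace Pool.Agent.H892.KT

theorem p_ANA : S_ANA := Pool.Agent.H981.KT.t_ANA 

theorem p_FD : S_FD := Pool.Agent.H729.KT.t_FD 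

theorem p_TRACE : S_TRACE := Pool.Agent.H661.KT.t_TRACE p_FD

theorem p_QUAD : S_QUAD := Pool.Agent.H782.KT.t_QUAD p_FD p_ANA

theorem p_LIP : S_LIP := Pool.Agent.H84.KT.t_LIP 

theorem p_WEIGHT : S_WEIGHT := Pool.Agent.H195.KT.t_WEIGHT p_LIP

theorem p_HATLIP : S_HATLIP := Pool.Agent.H353.KT.t_HATLIP 

theorem p_QUOT : S_QUOT := Pool.Agent.H200.KT.t_QUOT 

theorem p_INVLIP : S_INVLIP := Pool.Agent.H722.KT.t_INVLIP 

theorem p_OP : S_OP := Pool.Agent.H287.KT.t_OP p_HATLIP p_QUOT p_INVLIP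

theorem p_LIM : S_LIM := Pool.Agent.H828.KT.t_LIM 

theorem p_FIX : S_FIX := Pool.Agent.H190.KT.t_FIX p_OP p_LIM

theorem p_INVD : S_INVD := Pool.Agent.H668.KT.t_INVD 

theorem p_BIRINV : S_BIRINV := Pool.Agent.H348.KT.t_BIRINV 

theorem p_BIRBASIC : S_BIRBASIC := Pool.Agent.H670.KT.t_BIRBASIC 

theorem p_UNIQ : S_UNIQ := Pool.Agent.H336.KT.t_UNIQ 

theorem p_CONN : S_CONN := Pool.Agent.H653.KT.t_CONN p_UNIQ

theorem p_AUT : S_AUT := Pool.Agent.H897.KT.t_AUT p_UNIQ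

theorem p_JTAY : S_JTAY := Pool.Agent.H280.KT.t_JTAY 

theorem p_JLINBG : S_JLINBG := Pool.Agent.H241.KT.t_JLINBG 

theorem p_JSH : S_JSH := Pool.Agent.H800.KT.t_JSH 

theorem p_VDM : S_VDM := Pool.Agent.H308.KT.t_VDM 

theorem p_JSPAN : S_JSPAN := Pool.Agent.H164.KT.t_JSPAN p_VDM

theorem p_RED1 : S_RED1 := Pool.Agent.H874.KT.t_RED1 

theorem p_RED2 : S_RED2 := Pool.Agent.H92.KT.t_RED2 

theorem p_MK : S_MK := Pool.Agent.H924.KT.t_MK p_ANA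

theorem p_PHI : S_PHI := Pool.Agent.H286.KT.t_PHI 

theorem p_HATB : S_HATB := Pool.Agent.H612.KT.t_HATB p_QUOT

theorem p_CHART : S_CHART := Pool.Agent.H922.KT.t_CHART p_MK p_PHI p_HATB p_BIRBASIC

theorem p_REFINE : S_REFINE := Pool.Agent.H790.KT.t_REFINE p_CONN p_AUT

theorem p_RATCOMP : S_RATCOMP := Pool.Agent.H331.KT.t_RATCOMP p_UNIQ

theorem p_BIRCOMP : S_BIRCOMP := Pool.Agent.H294.KT.t_BIRCOMP p_RATCOMP

theorem p_JCOMP : S_JCOMP := Pool.Agent.H101.KT.t_JCOMP p_RATCOMP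

theorem p_JADD : S_JADD := Pool.Agent.H727.KT.t_JADD p_JCOMP

theorem p_JLIN : S_JLIN := Pool.Agent.H411.KT.t_JLIN p_JCOMP p_JLINBG

theorem p_JALL : S_JALL := Pool.Agent.H297.KT.t_JALL p_JADD p_JLIN p_JSH p_JSPAN

theorem p_JSTEP : S_JSTEP := Pool.Agent.H335.KT.t_JSTEP p_ANA p_JTAY p_JALL p_JCOMP

theorem p_JETS : S_JETS := Pool.Agent.H549.KT.t_JETS p_JSTEP p_JLINBG

theorem p_LINK : S_LINK := Pool.Agent.H387.KT.t_LINK p_BIRBASIC p_BIRCOMP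

theorem p_TRANS : S_TRANS := Pool.Agent.H571.KT.t_TRANS p_LINK p_CHART p_BIRCOMP p_BIRINV

theorem p_ATLAS : S_ATLAS := Pool.Agent.H106.KT.t_ATLAS p_RED1 p_RED2 p_CHART p_TRANS p_BIRCOMP p_BIRINV

theorem p_CONJ : S_CONJ := Pool.Agent.H448.KT.t_CONJ p_TRACE p_QUAD p_WEIGHT p_INVD p_JETS p_FIX p_ANA

theorem main : S_MAIN := main_of p_CONJ p_ATLAS p_REFINE

end Pool.Agent.H892.KT
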