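import Pool.Agent.H892.KT.EN
import Pool.Agent.H892.KT.Main
import Pool.Agent.H892.KT.W.E_TR
import Pool.Agent.H892.KT.W.E_GEO
import Pool.Agent.H892.KT.W.E_GEO1
import Pool.Agent.H892.KT.W.E_NBHD
import Pool.Agent.H892.KT.W.E_DIV
import Pool.Agent.H892.KT.W.E_PROD
import Pool.Agent.H892.KT.W.E_EIG
import Pool.Agent.H892.KT.W.E_MKK
import Pool.Agent.H892.KT.W.E_LIFT
import Pool.Agent.H892.KT.W.E_DIR
import Pool.Agent.H892.KT.W.E_TPFIB
import Pool.Agent.H892.KT.W.E_TPLOC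
import Pool.Agent.H892.KT.W.E_TP
import Pool.Agent.H892.KT.W.E_ST1
import Pool.Agent.H892.KT.W.E_PRIM
import Pool.Agent.H892.KT.W.E_CST
import Pool.Agent.H892.KT.W.E_REST
import Pool.Agent.H892.KT.W.E_QSEQ
import Pool.Agent.H892.KT.W.E_QF
import Pool.Agent.H892.KT.W.E_ST2
import Pool.Agent.H892.KT.W.E_ST3

/-!
# Kato surfaces and birational structures: assembly of the second part

The lemmas were proved by teammates (helpers 142, 224, 276, 287, 294, 299, 357, 370, 402, 415, 650,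
736, 789, 795, 801, 813, 895, 924, 975, 980, 981).
-/

set_option autoImplicit false

namespace Pool.Agent.H892.KT

theorem q_TR : S_TR := Pool.Agent.H895.EN_TR.t_TR p_FD

theorem q_GEO : S_GEO := Pool.Agent.H795.EN_GEO.t_GEO p_FD

theorem q_GEO1 : S_GEO1 := Pool.Agent.H736.EN_GEO1.t_GEO1

theorem q_NBHD : S_NBHD := Pool.Agent.H415.EN_NBHD.t_NBHD

theorem q_DIV : S_DIV := Pool.Agent.H224.EN_DIV.t_DIV p_ANA

theorem q_PROD : S_PROD := Pool.Agent.H975.EN_PROD.t_PROD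

theorem q_EIG : S_EIG := Pool.Agent.H294.EN_EIG.t_EIG q_DIV q_PROD

theorem q_MKK : S_MKK := Pool.Agent.H276.EN_MKK.t_MKK

theorem q_LIFT : S_LIFT := Pool.Agent.H980.EN_LIFT.t_LIFT q_DIV

theorem q_DIR : S_DIR := Pool.Agent.H370.EN_DIR.t_DIR q_LIFT p_INVD

theorem q_TPFIB : S_TPFIB := Pool.Agent.H650.EN_TPFIB.t_TPFIB q_DIR p_RED2

theorem q_TPLOC : S_TPLOC := Pool.Agent.H142.EN_TPLOC.t_TPLOC p_MK q_LIFT

theorem q_TP : S_TP := Pool.Agent.H287.EN_TP.t_TP q_TPFIB q_TPLOC p_RED1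

theorem q_ST1 : S_ST1 := Pool.Agent.H299.EN_ST1.t_ST1 q_NBHD q_EIG q_MKK p_INVD p_ANA

theorem q_PRIM : S_PRIM := Pool.Agent.H357.EN_PRIM.t_PRIM p_ANA

theorem q_CST : S_CST := Pool.Agent.H402.EN_CST.t_CST

theorem q_REST : S_REST := Pool.Agent.H789.EN_REST.t_REST q_DIV

theorem q_QSEQ : S_QSEQ := Pool.Agent.H981.EN_QSEQ.t_QSEQ

theorem q_QF : S_QF := Pool.Agent.H801.EN_QF.t_QF q_QSEQ

theorem q_ST2 : S_ST2 := Pool.Agent.H924.EN_ST2.t_ST2 q_GEO1 q_NBHD q_PROD q_PRIM q_REST q_QF q_MKK p_INVD p_ANA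

theorem q_ST3 : S_ST3 := Pool.Agent.H813.EN_ST3.t_ST3 p_JLINBG

/-- every Kato surface has a birational structure -/
theorem main_all : S_ALL :=
  all_of main p_ATLAS p_REFINE q_TR q_GEO q_TP q_ST1 q_ST2 q_ST3

end Pool.Agent.H892.KT
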